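import Mathlib

set_option autoImplicit false

namespace Pool.Agent.MP_475f46_co.H23

variable {V : Type} (G : SimpleGraph V)

/-- reachability inside a set -/
def Rch (S : Set V) (a b : V) : Prop :=
  Relation.ReflTransGen (fun x y => G.Adj x y ∧ x ∈ S ∧ y ∈ S) a b

variable {G}

theorem Rch.refl (S : Set V) (a : V) : Rch G S a a := Relation.ReflTransGen.refl

theorem Rch.trans {S : Set V} {a b d : V} (h : Rch G S a b) (h' : Rch G S b d) : Rch G S a d :=
  Relation.ReflTransGen.trans h h'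

theorem Rch.step {S : Set V} {a b : V} (h : G.Adj a b) (ha : a ∈ S) (hb : b ∈ S) : Rch G S a b :=
  Relation.ReflTransGen.single ⟨h, ha, hb⟩

theorem Rch.mono {S S' : Set V} (hS : S ⊆ S') {a b : V} (h : Rch G S a b) : Rch G S' a b := by
  induction h with
  | refl => exact Rch.refl _ _
  | tail _ hbc ih => exact ih.trans (Rch.step hbc.1 (hS hbc.2.1) (hS hbc.2.2))

theorem Rch.symm {S : Set V} {a b : V} (h : Rch G S a b) : Rch G S b a := by
  induction h with
  | refl => exact Rch.refl _ _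
  | tail _ hbc ih => exact (Rch.step hbc.1.symm hbc.2.2 hbc.2.1).trans ih

theorem Rch.mem {S : Set V} {a b : V} (h : Rch G S a b) (hb : b ∈ S) : a ∈ S := by
  induction h using Relation.ReflTransGen.head_induction_on with
  | refl => exact hb
  | head hab _ _ => exact hab.2.1

theorem Rch.of_connected {S : Set V} (h : (G.induce S).Connected) {a b : V} (ha : a ∈ S)
    (hb : b ∈ S) : Rch G S a b := by
  have h1 := (SimpleGraph.reachable_iff_reflTransGen _ _).1 (h.preconnected ⟨a, ha⟩ ⟨b, hb⟩)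
  have : ∀ x y : S, Relation.ReflTransGen (G.induce S).Adj x y → Rch G S x.1 y.1 := by
    intro x y hxy
    induction hxy with
    | refl => exact Rch.refl _ _
    | tail _ hbc ih => exact ih.trans (Rch.step hbc (Subtype.prop _) (Subtype.prop _))
  exact this _ _ h1

theorem connected_of_rch {S : Set V} {r : V} (hr : r ∈ S) (h : ∀ v ∈ S, Rch G S v r) :
    (G.induce S).Connected := by
  have key : ∀ a b : V, Rch G S a b → ∀ (ha : a ∈ S) (hb : b ∈ S),
      (G.induce S).Reachable ⟨a, ha⟩ ⟨b, hb⟩ := by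
    intro a b hab
    induction hab with
    | refl => intro ha hb; exact SimpleGraph.Reachable.refl _
    | tail _ hbc ih =>
      intro ha hb
      exact (ih ha hbc.2.1).trans (SimpleGraph.Adj.reachable (by exact hbc.1))
  have : Nonempty S := ⟨⟨r, hr⟩⟩
  refine SimpleGraph.Connected.mk ?_
  intro x y
  exact (key _ _ (h x.1 x.2) x.2 hr).trans (key _ _ (h y.1 y.2) y.2 hr).symm

/-- first hit of a vertex -/
theorem Rch.first_hit {S : Set V} {v z : V} (h : Rch G S v z) (hv : v ≠ z) :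
    ∃ u, G.Adj u z ∧ u ∈ S \ {z} ∧ Rch G (S \ {z}) v u := by
  induction h using Relation.ReflTransGen.head_induction_on with
  | refl => exact absurd rfl hv
  | @head a b hab _ ih =>
    by_cases hb : b = z
    · subst hb
      exact ⟨a, hab.1, ⟨hab.2.1, hv⟩, Rch.refl _ _⟩
    · obtain ⟨u, hu1, hu2, hu3⟩ := ih hb
      have h1 : a ∈ S \ {z} := ⟨hab.2.1, hv⟩
      have h2 : b ∈ S \ {z} := ⟨hab.2.2, hb⟩
      exact ⟨u, hu1, hu2, (Rch.step hab.1 h1 h2).trans hu3⟩

theorem Rch.comp {S : Set V} {v r : V} (h : Rch G S v r) :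
    Rch G {x | x ∈ S ∧ Rch G S x r} v r := by
  induction h using Relation.ReflTransGen.head_induction_on with
  | refl => exact Rch.refl _ _
  | @head a b hab hb ih =>
    have h1 : a ∈ {x | x ∈ S ∧ Rch G S x r} :=
      ⟨hab.2.1, (Rch.step hab.1 hab.2.1 hab.2.2).trans hb⟩
    have h2 : b ∈ {x | x ∈ S ∧ Rch G S x r} := ⟨hab.2.2, hb⟩
    exact (Rch.step hab.1 h1 h2).trans ih

/-- the part of `S` that reaches `r` without passing through `z` -/
def side (G : SimpleGraph V) (S : Set V) (r z : V) : Set V :=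
  {x | x ∈ S \ {z} ∧ Rch G (S \ {z}) x r}

theorem side_rch {S : Set V} {r z v : V} (hv : v ∈ side G S r z) : Rch G (side G S r z) v r :=
  hv.2.comp

theorem compl_side_rch {S : Set V} {r z : V} (hz : z ∈ S) (hS : ∀ v ∈ S, Rch G S v z) {v : V}
    (hv : v ∈ S \ side G S r z) : Rch G (S \ side G S r z) v z := by
  by_cases hvz : v = z
  · subst hvz; exact Rch.refl _ _
  obtain ⟨u, hu1, hu2, hu3⟩ := (hS v hv.1).first_hit hvz
  have hsub : {x | x ∈ S \ {z} ∧ Rch G (S \ {z}) x u} ⊆ S \ side G S r z := by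
    intro x hx
    refine ⟨hx.1.1, fun hxs => hv.2 ⟨⟨hv.1, hvz⟩, ?_⟩⟩
    exact (hu3.trans hx.2.symm).trans hxs.2
  refine (hu3.comp.mono hsub).trans (Rch.step hu1 (hsub ⟨hu2, Rch.refl _ _⟩) ⟨hz, ?_⟩)
  intro h
  exact h.1.2 rfl

section Kempe

variable {k : ℕ} {c : V → Fin k} {t : Fin k → V}

/-- union of two classes -/
def pr (c : V → Fin k) (i j : Fin k) : Set V := {v | c v = i ∨ c v = j}

/-- a bag: connected with exactly one root, using only colours in `K` -/
def Bag (G : SimpleGraph V) (c : V → Fin k) (t : Fin k → V) (K : Finset (Fin k)) (X : Set V) :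
    Prop :=
  (G.induce X).Connected ∧ (∃! j, t j ∈ X) ∧ ∀ v ∈ X, c v ∈ K

theorem nbr_in_class (hp : ∀ u v, G.Adj u v → c u ≠ c v)
    (hK : ∀ i j, i ≠ j → (G.induce (pr c i j)).Connected) (ht : ∀ i, c (t i) = i)
    {l : Fin k} {x : V} (hx : c x ≠ l) : ∃ u, c u = l ∧ G.Adj u x := by
  have h1 : Rch G (pr c l (c x)) (t l) x :=
    Rch.of_connected (hK _ _ hx.symm) (Or.inl (ht l)) (Or.inr rfl)
  obtain ⟨u, hu1, hu2, -⟩ := h1.first_hit (fun h => hx (by rw [← h, ht]))
  rcases hu2.1 with h | h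
  · exact ⟨u, h, hu1⟩
  · exact absurd h (hp _ _ hu1)

theorem bag_side (ht : ∀ i, c (t i) = i) {i l : Fin k} (hil : i ≠ l) :
    Bag G c t {i, l} (side G (pr c i l) (t i) (t l)) := by
  have hne : t i ≠ t l := fun h => hil (by rw [← ht i, h, ht])
  have hi : t i ∈ side G (pr c i l) (t i) (t l) := ⟨⟨Or.inl (ht i), hne⟩, Rch.refl _ _⟩
  refine ⟨connected_of_rch hi fun v hv => side_rch hv, ⟨i, hi, ?_⟩, ?_⟩
  · intro j hj
    rcases hj.1.1 with h | h
    · rwa [ht] at h
    · rw [ht] at h; subst h; exact absurd rfl hj.1.2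
  · intro v hv
    rcases hv.1.1 with h | h <;> simp [h]

theorem bag_compl (hK : ∀ i j, i ≠ j → (G.induce (pr c i j)).Connected) (ht : ∀ i, c (t i) = i)
    {i l : Fin k} (hil : i ≠ l) :
    Bag G c t {i, l} (pr c i l \ side G (pr c i l) (t i) (t l)) := by
  have hne : t i ≠ t l := fun h => hil (by rw [← ht i, h, ht])
  have hi : t i ∈ side G (pr c i l) (t i) (t l) := ⟨⟨Or.inl (ht i), hne⟩, Rch.refl _ _⟩
  have hl0 : t l ∈ pr c i l := Or.inr (ht l)
  have hl : t l ∈ pr c i l \ side G (pr c i l) (t i) (t l) := ⟨hl0, fun h => h.1.2 rfl⟩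
  refine ⟨connected_of_rch hl fun v hv => compl_side_rch hl0
    (fun w hw => Rch.of_connected (hK _ _ hil) hw hl0) hv, ⟨l, hl, ?_⟩, ?_⟩
  · intro j hj
    rcases hj.1 with h | h
    · rw [ht] at h; subst h; exact absurd hi hj.2
    · rwa [ht] at h
  · intro v hv
    rcases hv.1 with h | h <;> simp [h]

/-- Key lemma: if a third root misses the side of `t i`, the whole class `l` can be connected. -/
theorem bag_whole (hp : ∀ u v, G.Adj u v → c u ≠ c v)
    (hK : ∀ i j, i ≠ j → (G.induce (pr c i j)).Connected) (ht : ∀ i, c (t i) = i)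
    {i l j : Fin k} (hil : i ≠ l) (hlj : l ≠ j) (hij : i ≠ j)
    (hm : ∀ u ∈ side G (pr c i l) (t i) (t l), ¬ G.Adj u (t j)) :
    Bag G c t {i, l, j} ((pr c i l \ side G (pr c i l) (t i) (t l)) ∪ (pr c l j \ {t j})) := by
  have hne : t i ≠ t l := fun h => hil (by rw [← ht i, h, ht])
  have hi : t i ∈ side G (pr c i l) (t i) (t l) := ⟨⟨Or.inl (ht i), hne⟩, Rch.refl _ _⟩
  have hl0 : t l ∈ pr c i l := Or.inr (ht l)
  have hl : t l ∈ pr c i l \ side G (pr c i l) (t i) (t l) := ⟨hl0, fun h => h.1.2 rfl⟩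
  have hW : ∀ v ∈ pr c i l \ side G (pr c i l) (t i) (t l),
      Rch G ((pr c i l \ side G (pr c i l) (t i) (t l)) ∪ (pr c l j \ {t j})) v (t l) :=
    fun v hv => (compl_side_rch hl0 (fun w hw => Rch.of_connected (hK _ _ hil) hw hl0) hv).mono
      Set.subset_union_left
  refine ⟨connected_of_rch (Or.inl hl) ?_, ⟨l, Or.inl hl, ?_⟩, ?_⟩
  · rintro v (hv | hv)
    · exact hW v hv
    · obtain ⟨u, hu1, hu2, hu3⟩ :=
        (Rch.of_connected (hK _ _ hlj) hv.1 (Or.inr (ht j))).first_hit hv.2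
      have hul : c u = l := by
        rcases hu2.1 with h | h
        · exact h
        · exact absurd (h.trans (ht j).symm) (hp _ _ hu1)
      exact (hu3.mono Set.subset_union_right).trans (hW u ⟨Or.inr hul, fun h => hm u h hu1⟩)
  · rintro y (hy | hy)
    · rcases hy.1 with h | h
      · rw [ht] at h; subst h; exact absurd hi hy.2
      · rwa [ht] at h
    · rcases hy.1 with h | h
      · rwa [ht] at h
      · rw [ht] at h; subst h; exact absurd rfl hy.2
  · rintro v (hv | hv)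
    · rcases hv.1 with h | h <;> simp [h]
    · rcases hv.1 with h | h <;> simp [h]

theorem step (hp : ∀ u v, G.Adj u v → c u ≠ c v)
    (hK : ∀ i j, i ≠ j → (G.induce (pr c i j)).Connected) (ht : ∀ i, c (t i) = i)
    (K : Finset (Fin k)) (h2 : 2 ≤ K.card) :
    ∃ D ⊆ K, D.card ≤ 3 ∧ ∃ X, Bag G c t D X ∧ ∀ x ∈ K \ D, ∃ u ∈ X, G.Adj u (t x) := by
  obtain ⟨i, hi, l, hl, hil⟩ := Finset.one_lt_card.1 h2
  by_cases h : ∀ x ∈ K \ {i, l}, ∃ u ∈ side G (pr c i l) (t i) (t l), G.Adj u (t x)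
  · refine ⟨{i, l}, ?_, ?_, _, bag_side ht hil, h⟩
    · intro x hx; simp only [Finset.mem_insert, Finset.mem_singleton] at hx
      rcases hx with rfl | rfl <;> assumption
    · exact (Finset.card_le_two).trans (by norm_num)
  · push Not at h
    obtain ⟨j, hj, hm⟩ := h
    simp only [Finset.mem_sdiff, Finset.mem_insert, Finset.mem_singleton, not_or] at hj
    refine ⟨{i, l, j}, ?_, Finset.card_le_three, _,
      bag_whole hp hK ht hil (Ne.symm hj.2.2) (Ne.symm hj.2.1) hm, ?_⟩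
    · intro x hx; simp only [Finset.mem_insert, Finset.mem_singleton] at hx
      rcases hx with rfl | rfl | rfl
      · exact hi
      · exact hl
      · exact hj.1
    · intro x hx
      simp only [Finset.mem_sdiff, Finset.mem_insert, Finset.mem_singleton, not_or] at hx
      obtain ⟨u, hu1, hu2⟩ := nbr_in_class hp hK ht (l := l) (x := t x) (by rw [ht]; exact hx.2.2.1)
      refine ⟨u, Or.inr ⟨Or.inl hu1, ?_⟩, hu2⟩
      intro h
      rw [Set.mem_singleton_iff] at h
      rw [h, ht] at hu1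
      exact hj.2.2 hu1

theorem Bag.mono {K K' : Finset (Fin k)} (h : K ⊆ K') {X : Set V} (hX : Bag G c t K X) :
    Bag G c t K' X := ⟨hX.1, hX.2.1, fun v hv => h (hX.2.2 v hv)⟩

/-- a family of bags forming a clique minor -/
def Fam (G : SimpleGraph V) (c : V → Fin k) (t : Fin k → V) (K : Finset (Fin k))
    (F : Finset (Set V)) : Prop :=
  (∀ X ∈ F, Bag G c t K X) ∧
    ∀ X ∈ F, ∀ Y ∈ F, X ≠ Y → Disjoint X Y ∧ ∃ u ∈ X, ∃ v ∈ Y, G.Adj u v

open Classical in
theorem Fam.insert {K : Finset (Fin k)} {F : Finset (Set V)} (hF : Fam G c t K F) {X : Set V}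
    (hX : Bag G c t K X) (h : ∀ Y ∈ F, Disjoint X Y ∧ ∃ u ∈ X, ∃ v ∈ Y, G.Adj u v) :
    Fam G c t K (insert X F) ∧ (insert X F).card = F.card + 1 := by
  have hn : X ∉ F := by
    intro hm
    obtain ⟨h1, u, hu, -⟩ := h X hm
    exact Set.disjoint_left.1 h1 hu hu
  refine ⟨⟨?_, ?_⟩, Finset.card_insert_of_notMem hn⟩
  · intro Y hY
    rcases Finset.mem_insert.1 hY with rfl | hY
    · exact hX
    · exact hF.1 Y hY
  · intro Y hY Z hZ hYZ
    rcases Finset.mem_insert.1 hY with hY' | hY' <;> rcases Finset.mem_insert.1 hZ with hZ' | hZ'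
    · exact absurd (hY'.trans hZ'.symm) hYZ
    · rw [hY']; exact h Z hZ'
    · obtain ⟨h1, u, hu, v, hv, huv⟩ := h Y hY'
      rw [hZ']
      exact ⟨h1.symm, v, hv, u, hu, huv.symm⟩
    · exact hF.2 Y hY' Z hZ' hYZ

theorem Fam.empty (K : Finset (Fin k)) : Fam G c t K ∅ := ⟨by simp, by simp⟩

open Classical in
theorem Fam.extend (ht : ∀ i, c (t i) = i) {K D : Finset (Fin k)} (hD : D ⊆ K)
    {F : Finset (Set V)} (hF : Fam G c t (K \ D) F) {X : Set V} (hX : Bag G c t D X)
    (h : ∀ x ∈ K \ D, ∃ u ∈ X, G.Adj u (t x)) :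
    ∃ F', Fam G c t K F' ∧ F'.card = F.card + 1 := by
  have hF' : Fam G c t K F := ⟨fun Y hY => (hF.1 Y hY).mono Finset.sdiff_subset, hF.2⟩
  refine ⟨_, hF'.insert (hX.mono hD) ?_⟩
  intro Y hY
  obtain ⟨-, ⟨j, hj, -⟩, hc⟩ := hF.1 Y hY
  refine ⟨Set.disjoint_left.2 fun v hv hv' => (Finset.mem_sdiff.1 (hc v hv')).2 (hX.2.2 v hv), ?_⟩
  obtain ⟨u, hu, huj⟩ := h j (by have := hc _ hj; rwa [ht] at this)
  exact ⟨u, hu, t j, hj, huj⟩

open Classical in
theorem third (hp : ∀ u v, G.Adj u v → c u ≠ c v)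
    (hK : ∀ i j, i ≠ j → (G.induce (pr c i j)).Connected) (ht : ∀ i, c (t i) = i) :
    ∀ (n : ℕ) (K : Finset (Fin k)), K.card = n → 1 ≤ n → ∃ F, Fam G c t K F ∧ n + 2 ≤ 3 * F.card := by
  intro n
  induction n using Nat.strong_induction_on with
  | _ n ih =>
    intro K hn h1
    by_cases h5 : 5 ≤ n
    · obtain ⟨D, hD, hD3, X, hX, hdom⟩ := step hp hK ht K (by omega)
      have hDpos : 1 ≤ D.card := by
        obtain ⟨-, ⟨j, hj, -⟩, hc⟩ := hX
        exact Finset.card_pos.2 ⟨_, hc _ hj⟩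
      have hc : (K \ D).card = n - D.card := by rw [Finset.card_sdiff_of_subset hD, hn]
      obtain ⟨F, hF, hFc⟩ := ih (n - D.card) (by omega) (K \ D) hc (by omega)
      obtain ⟨F', hF', hc'⟩ := hF.extend ht hD hX hdom
      exact ⟨F', hF', by omega⟩
    · by_cases h2 : 2 ≤ n
      · obtain ⟨i, hi, l, hl, hil⟩ := Finset.one_lt_card.1 (show 1 < K.card by omega)
        have hsub : ({i, l} : Finset (Fin k)) ⊆ K := by
          intro x hx; simp only [Finset.mem_insert, Finset.mem_singleton] at hx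
          rcases hx with rfl | rfl <;> assumption
        have hb1 := (bag_side (G := G) ht hil).mono hsub
        have hb2 := (bag_compl hK ht hil).mono hsub
        obtain ⟨hF1, hc1⟩ := (Fam.empty (G := G) (c := c) (t := t) K).insert hb2 (by simp)
        obtain ⟨hF2, hc2⟩ := hF1.insert hb1 (by
          intro Y hY
          rw [Finset.mem_insert] at hY
          rcases hY with rfl | hY
          · refine ⟨Set.disjoint_sdiff_right, ?_⟩
            have hne : t i ≠ t l := fun h => hil (by rw [← ht i, h, ht])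
            obtain ⟨u, hu1, hu2, hu3⟩ := (Rch.of_connected (hK _ _ hil) (Or.inl (ht i))
              (Or.inr (ht l))).first_hit hne
            exact ⟨u, ⟨hu2, hu3.symm⟩, t l, ⟨Or.inr (ht l), fun h => h.1.2 rfl⟩, hu1⟩
          · simp at hY)
        refine ⟨_, hF2, ?_⟩
        rw [hc2, hc1]; simp; omega
      · obtain ⟨i, hi⟩ := Finset.card_pos.1 (show 0 < K.card by omega)
        have hb : Bag G c t K {t i} := by
          refine ⟨connected_of_rch (r := t i) rfl fun v hv => ?_, ⟨i, rfl, fun j hj => ?_⟩, ?_⟩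
          · rw [Set.mem_singleton_iff.1 hv]; exact Rch.refl _ _
          · rw [← ht j, Set.mem_singleton_iff.1 hj, ht]
          · intro v hv; rw [Set.mem_singleton_iff.1 hv, ht]; exact hi
        obtain ⟨hF1, hc1⟩ := (Fam.empty (G := G) (c := c) (t := t) K).insert hb (by simp)
        refine ⟨_, hF1, ?_⟩
        rw [hc1]; simp; omega

end Kempe

end Pool.Agent.MP_475f46_co.H23
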